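import Pool.Agent.Lib.MP_3a81bf_co.RkRed

/-! The divisorial gonality of hypercubes and of all rook graphs, stated with literal chip-firing
moves. -/

set_option autoImplicit false

namespace Pool.Agent.Results.MP_3a81bf_co.Rook

open Pool.Agent.Lib.MP_3a81bf_co.Rk Finset

open Classical in
/-- Firing the vertex `v`: one chip moves from `v` along each edge at `v` to its other endpoint. -/
noncomputable def fire {W : Type} [Fintype W] (G : SimpleGraph W) (v : W) (D : W → ℤ) : W → ℤ :=
  fun w => if w = v then D w - (G.degree v : ℤ) else if G.Adj v w then D w + 1 else D w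

/-- Two divisors are equivalent if one is obtained from the other by a finite sequence of firings
and reverse firings. -/
def Equivalent {W : Type} [Fintype W] (G : SimpleGraph W) (D E : W → ℤ) : Prop :=
  Relation.ReflTransGen (fun A B => ∃ v, B = fire G v A ∨ A = fire G v B) D E

/-- A divisor is effective if all its values are nonnegative. -/
def Effective {W : Type} (D : W → ℤ) : Prop := ∀ w, 0 ≤ D w

open Classical in
/-- For every vertex `v` the divisor `D - (v)` is equivalent to an effective divisor. -/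
def RankGeOne {W : Type} [Fintype W] (G : SimpleGraph W) (D : W → ℤ) : Prop :=
  ∀ v, ∃ E, Effective E ∧ Equivalent G (fun w => if w = v then D w - 1 else D w) E

/-- `g` is the minimum degree of an effective divisor of rank at least one. -/
def IsGonality {W : Type} [Fintype W] (G : SimpleGraph W) (g : ℤ) : Prop :=
  IsLeast {d : ℤ | ∃ D : W → ℤ, Effective D ∧ RankGeOne G D ∧ ∑ w, D w = d} g

/-- The hypercube graph: vertices are the `0/1` vectors of length `n`, adjacent exactly when they
differ in one coordinate. -/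
def cube (n : ℕ) : SimpleGraph (Fin n → Bool) where
  Adj x y := hammingDist x y = 1
  symm := ⟨fun x y h => by rwa [hammingDist_comm]⟩
  loopless := ⟨fun x h => by simp at h⟩

/-- The rook graph, that is the Cartesian product of the complete graphs on `m i` vertices: vertices
are the vectors whose `i`-th entry lies in `Fin (m i)`, adjacent exactly when they differ in one
coordinate. -/
def rook {d : ℕ} (m : Fin d → ℕ) : SimpleGraph ((i : Fin d) → Fin (m i)) where
  Adj x y := hammingDist x y = 1
  symm := ⟨fun x y h => by rwa [hammingDist_comm]⟩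
  loopless := ⟨fun x h => by simp at h⟩

section general

variable {W : Type} [Fintype W] [DecidableEq W] {G : SimpleGraph W}

theorem fire_eq (v : W) (D : W → ℤ) : fire G v D = D - lap G (Pi.single v 1) := by
  classical
  funext w
  rw [fire, Pi.sub_apply, lap_apply]
  by_cases h : w = v
  · subst h
    rw [if_pos rfl, sum_congr rfl fun x _ => if_ctx_congr (v := 0) Iff.rfl
      (fun hx => show _ = (1 : ℤ) by simp [hx.ne']) fun _ => rfl, sum_boole,
      ← SimpleGraph.card_neighborFinset_eq_degree, SimpleGraph.neighborFinset_eq_filter]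
  · rw [if_neg h, sum_eq_single v (fun x _ hx => by simp [h, hx]) (by simp), G.adj_comm w]
    split_ifs <;> simp [h]

theorem equivalent_iff (D E : W → ℤ) : Equivalent G D E ↔ ∃ f, E = D - lap G f := by
  constructor
  · intro h
    induction h with
    | refl => exact ⟨0, by simp⟩
    | tail _ hstep ih =>
      obtain ⟨f, rfl⟩ := ih
      obtain ⟨v, hv | hv⟩ := hstep
      · exact ⟨f + Pi.single v 1, by rw [hv, fire_eq, map_add, sub_sub]⟩
      · exact ⟨f - Pi.single v 1, by rw [map_sub, ← sub_add, hv, fire_eq, sub_add_cancel]⟩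
  · rintro ⟨f, rfl⟩
    let S : AddSubmonoid (W → ℤ) :=
      { carrier := {f | ∀ D, Equivalent G D (D - lap G f)}
        zero_mem' := fun D => by
          rw [map_zero, sub_zero]
          exact .refl
        add_mem' := fun {f g} hf hg D => by
          rw [map_add, ← sub_sub]
          exact (hf D).trans (hg _) }
    have h1 : ∀ v, Pi.single v 1 ∈ S := fun v D => .single ⟨v, .inl (fire_eq v D).symm⟩
    have h2 : ∀ v, -Pi.single v 1 ∈ S := fun v D => .single ⟨v, .inr (by simp [fire_eq])⟩
    have h3 : ∀ v k, Pi.single v k ∈ S := fun v k => by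
      induction k using Int.induction_on with
      | zero => simp
      | succ k ih => exact Pi.single_add (f := fun _ => ℤ) v _ _ ▸ S.add_mem ih (h1 v)
      | pred k ih =>
        rw [Pi.single_sub, sub_eq_add_neg]
        exact S.add_mem ih (h2 v)
    exact (univ_sum_single f ▸ S.sum_mem fun v _ => h3 v (f v) : f ∈ S) D

theorem rank_iff (D : W → ℤ) : RankGeOne G D ↔
    ∀ v, ∃ f : W → ℤ, ∀ w, 0 ≤ D w - (if w = v then 1 else 0) - lap G f w := by
  refine forall_congr' fun v => ⟨?_, ?_⟩
  · rintro ⟨E, hE, h⟩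
    obtain ⟨f, rfl⟩ := (equivalent_iff _ _).mp h
    refine ⟨f, fun w => (hE w).trans_eq ?_⟩
    by_cases hw : w = v <;> simp [hw]
  · rintro ⟨f, hf⟩
    refine ⟨_, fun w => (hf w).trans_eq ?_, (equivalent_iff _ _).mpr ⟨f, rfl⟩⟩
    by_cases hw : w = v <;> simp [hw]

end general

theorem gon_rk {d : ℕ} {α : Fin d → Type} [∀ i, Fintype (α i)] [∀ i, DecidableEq (α i)]
    {G : SimpleGraph ((i : Fin d) → α i)} (hG : ∀ x y, G.Adj x y ↔ hammingDist x y = 1)
    (i₀ : Fin d) (h2 : 2 ≤ Fintype.card (α i₀)) (h : ∀ i, Fintype.card (α i₀) ≤ Fintype.card (α i)) :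
    IsGonality G ((Fintype.card (α i₀) - 1) * ∏ i ∈ univ.erase i₀, (Fintype.card (α i) : ℤ)) := by
  obtain rfl : G = rk α := by
    ext x y
    rw [hG, hammingDist, card_eq_one]
    refine exists_congr fun i => ?_
    rw [eq_singleton_iff_unique_mem]
    simp only [mem_filter, mem_univ, true_and, ne_eq, not_imp_comm]
  obtain ⟨s, t, hst⟩ := Fintype.exists_pair_of_one_lt_card h2
  refine ⟨⟨_, fun w => by positivity, (rank_iff _).2 (upper i₀ hst), upper_sum i₀ t⟩, ?_⟩
  rintro _ ⟨D, hE, hr, rfl⟩
  obtain ⟨d, rfl⟩ := Nat.exists_eq_succ_of_ne_zero i₀.pos.ne'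
  obtain ⟨a, ha⟩ : ∃ a, Fintype.card (α i₀) = a := ⟨_, rfl⟩
  rw [ha] at h2 h ⊢
  have : ∀ i, Nonempty (α i) := fun i => Fintype.card_pos_iff.1 (by linarith [h i])
  have a2 : (2 : ℝ) ≤ a := by exact_mod_cast h2
  have a0 : (0 : ℝ) < 1 / a := by positivity
  have a1 : (a : ℝ) * (1 / a) = 1 := mul_one_div_cancel (by positivity)
  obtain ⟨h3, h4⟩ := rk_iso_fac h2 d α i₀ ha h
  have h5 := lower (h3 a le_rfl fun i _ => h i) h4 (by nlinarith)
    (le_of_mul_le_mul_left (by nlinarith [sq_nonneg ((a : ℝ) - 2)]) (by linarith : (0 : ℝ) < a))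
    D hE ((rank_iff D).1 hr)
  rw [Fintype.card_pi, ← mul_prod_erase univ _ (mem_univ i₀), ha, Nat.cast_mul, ← mul_assoc,
    show (1 - 1 / a : ℝ) * a = a - 1 by linarith] at h5
  exact_mod_cast h5

/-- The divisorial gonality of the `n`-dimensional hypercube graph is `2 ^ (n - 1)`; the divisorial
gonality of a rook graph with smallest side `m i₀ ≥ 2` is `m i₀ - 1` times the product of the other
sides. -/
theorem result : (∀ n : ℕ, 1 ≤ n → IsGonality (cube n) (2 ^ (n - 1))) ∧
    ∀ (d : ℕ) (m : Fin d → ℕ) (i₀ : Fin d), 2 ≤ m i₀ → (∀ i, m i₀ ≤ m i) →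
      IsGonality (rook m) (((m i₀ : ℤ) - 1) * ∏ i ∈ Finset.univ.erase i₀, (m i : ℤ)) := by
  refine ⟨fun n hn => ?_, fun d m i₀ h2 h => ?_⟩
  · simpa using gon_rk (G := cube n) (fun _ _ => Iff.rfl) ⟨0, hn⟩ (by simp) fun _ => le_rfl
  · simpa using gon_rk (G := rook m) (fun _ _ => Iff.rfl) i₀ (by simpa using h2) (by simpa using h)

end Pool.Agent.Results.MP_3a81bf_co.Rook
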